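import Pool.Agent.R868.SSh.Uniq

/-!
Positive answer to Q1 of MP_814ec7_co: there is a self-shuffling word (over seven letters) with
exactly one steering word.
-/

set_option autoImplicit false

namespace Pool.Agent.Results.MP_814ec7_co.UniqueSteering

open Pool.Agent.R868.SSh

/-- The sets `N` and `Nᶜ` are infinite, and the word `x` read along each of them, in increasing
order of the positions, is `x`. -/
def IsSplitting {A : Type} (x : ℕ → A) (N : Set ℕ) : Prop :=
  N.Infinite ∧ Nᶜ.Infinite ∧ (∀ k, x (Nat.nth (· ∈ N) k) = x k) ∧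
    ∀ k, x (Nat.nth (· ∈ Nᶜ) k) = x k

/-- The word `x` is self-shuffling. -/
def SelfShuffling {A : Type} (x : ℕ → A) : Prop := ∃ N, IsSplitting x N

/-- The word `s` (with letters `0` for the first copy and `1` for the second copy) is the steering
word of a splitting. -/
def IsSteering {A : Type} (x : ℕ → A) (s : ℕ → Fin 2) : Prop := IsSplitting x {n | s n = 0}

/-- the number of elements of `st` below `n` -/
def I (n : ℕ) : ℕ :=
  if n ≤ 7 then n else if n ≤ 12 then 7
  else 7 + 3 * ((n - 12) / 6) + (if n % 6 ≤ 1 then 0 else if n % 6 = 2 then 1 else 2)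

lemma I_step (n : ℕ) : (st n → I (n + 1) = I n + 1) ∧ (¬ st n → I (n + 1) = I n) := by
  unfold st I
  constructor
  · intro h
    split_ifs <;> omega
  · intro h
    split_ifs <;> omega

lemma xw_I (n : ℕ) (h : st n) : xw n = xw (I n) := by
  by_cases h7 : n < 7
  · rw [I, if_pos (by omega)]
  · obtain ⟨k, r, hr, rfl⟩ : ∃ k r, r < 6 ∧ n = 12 + r + 6 * k :=
      ⟨(n - 12) / 6, (n - 12) % 6, Nat.mod_lt _ (by norm_num), by unfold st at h; omega⟩
    unfold st at h
    have hI : I (12 + r + 6 * k) = 7 + 3 * k + (if r ≤ 1 then 0 else if r = 2 then 1 else 2) := by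
      unfold I
      split_ifs <;> omega
    rw [hI]
    interval_cases r
    · omega
    · simpa using xw1 k
    · have := xw2 k
      rw [show 12 + 2 + 6 * k = 14 + 6 * k by ring, this]
      congr 1; simp; ring
    · omega
    · omega
    · have := xw5 k
      rw [show 12 + 5 + 6 * k = 17 + 6 * k by ring, this]
      congr 1; simp; ring

lemma xw_J (n : ℕ) (h : ¬ st n) : xw n = xw (n - I n) := by
  by_cases h12 : n < 12
  · have h7 : 7 ≤ n := by unfold st at h; omega
    have : I n = 7 := by unfold I; split_ifs <;> omega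
    rw [this, xw_mid n h7 h12, xw_lt _ (by omega)]
  · obtain ⟨k, r, hr, rfl⟩ : ∃ k r, r < 6 ∧ n = 12 + r + 6 * k :=
      ⟨(n - 12) / 6, (n - 12) % 6, Nat.mod_lt _ (by norm_num), by omega⟩
    unfold st at h
    have hI : 12 + r + 6 * k - I (12 + r + 6 * k) =
        5 + r + 3 * k - (if r ≤ 1 then 0 else if r = 2 then 1 else 2) := by
      unfold I
      split_ifs <;> omega
    rw [hI]
    interval_cases r
    · simpa using xw0 k
    · omega
    · omega
    · rw [show 12 + 3 + 6 * k = 15 + 6 * k by ring, xw3 k]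
      congr 1; simp; omega
    · rw [show 12 + 4 + 6 * k = 16 + 6 * k by ring, xw4 k]
      congr 1; simp; omega
    · omega

lemma count_st (p : ℕ → Prop) [DecidablePred p] (hp : ∀ n, p n ↔ st n) (n : ℕ) :
    Nat.count p n = I n := by
  induction n with
  | zero => simp [I]
  | succ n ih =>
    rw [Nat.count_succ, ih]
    by_cases h : p n
    · rw [if_pos h, (I_step n).1 ((hp n).1 h)]
    · rw [if_neg h, (I_step n).2 (fun h' => h ((hp n).2 h'))]; rfl

lemma count_not (p : ℕ → Prop) [DecidablePred p] (hp : ∀ n, p n ↔ ¬ st n) (n : ℕ) :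
    Nat.count p n + I n = n := by
  induction n with
  | zero => simp [I]
  | succ n ih =>
    rw [Nat.count_succ]
    by_cases h : p n
    · rw [if_pos h, (I_step n).2 ((hp n).1 h)]; omega
    · rw [if_neg h, (I_step n).1 (not_not.1 fun h' => h ((hp n).2 h'))]; omega

/-- the word, with letters in `Fin 7` -/
def xf (n : ℕ) : Fin 7 := ⟨xw n, xw_bound n⟩

section
open Classical

lemma split_st : IsSplitting xf {n | st n} := by
  have h1 : {n | st n}.Infinite := by
    apply Set.infinite_of_forall_exists_gt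
    intro a
    exact ⟨13 + 6 * a, by simp only [Set.mem_ofPred_eq, st]; omega, by omega⟩
  have h2 : {n | st n}ᶜ.Infinite := by
    apply Set.infinite_of_forall_exists_gt
    intro a
    exact ⟨12 + 6 * a, by simp only [Set.mem_compl_iff, Set.mem_ofPred_eq, st]; omega, by omega⟩
  refine ⟨h1, h2, fun k => ?_, fun k => ?_⟩
  · have hm := Nat.nth_mem_of_infinite (p := (· ∈ {n | st n})) h1 k
    have hc := Nat.count_nth_of_infinite (p := (· ∈ {n | st n})) h1 k
    have hx := xw_I _ hm
    rw [count_st _ (fun n => by simp)] at hc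
    rw [hc] at hx
    exact Fin.ext hx
  · have hm := Nat.nth_mem_of_infinite (p := (· ∈ {n | st n}ᶜ)) h2 k
    have hc := Nat.count_nth_of_infinite (p := (· ∈ {n | st n}ᶜ)) h2 k
    have hx := xw_J _ hm
    have h3 := count_not (· ∈ {n | st n}ᶜ) (fun n => by simp) (Nat.nth (· ∈ {n | st n}ᶜ) k)
    have e : Nat.nth (· ∈ {n | st n}ᶜ) k - I (Nat.nth (· ∈ {n | st n}ᶜ) k) = k := by
      omega
    rw [e] at hx
    exact Fin.ext hx

lemma path_of_splitting {N : Set ℕ} (h : IsSplitting xf N) :
    Path xw (· ∈ N) (Nat.count (· ∈ N)) (Nat.count (· ∈ Nᶜ)) := by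
  refine ⟨by simp, by simp, fun n hn => ?_, fun n hn => ?_⟩
  · refine ⟨?_, ?_, ?_⟩
    · have := h.2.2.1 (Nat.count (· ∈ N) n)
      rw [Nat.nth_count (p := (· ∈ N)) hn] at this
      exact congrArg Fin.val this
    · rw [Nat.count_succ, if_pos hn]
    · rw [Nat.count_succ, if_neg (fun h' => h' hn)]; rfl
  · refine ⟨?_, ?_, ?_⟩
    · have := h.2.2.2 (Nat.count (· ∈ Nᶜ) n)
      rw [Nat.nth_count (p := (· ∈ Nᶜ)) hn] at this
      exact congrArg Fin.val this
    · rw [Nat.count_succ, if_neg hn]; rfl
    · rw [Nat.count_succ, if_pos (show n ∈ Nᶜ from hn)]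

lemma splitting_unique {N : Set ℕ} (h : IsSplitting xf N) (h0 : 0 ∈ N) (n : ℕ) :
    n ∈ N ↔ st n := by
  refine (path_of_splitting h).unique h0 ?_ n
  obtain ⟨m, hm, hm'⟩ := h.2.1.exists_gt 8
  exact ⟨m, hm'.le, hm⟩

end

/-- There is a word over seven letters which is self-shuffling and has exactly one steering word
whose first letter is that of the first copy. -/
theorem result : ∃ x : ℕ → Fin 7, SelfShuffling x ∧ ∃! s : ℕ → Fin 2, s 0 = 0 ∧ IsSteering x s := by
  classical
  refine ⟨xf, ⟨_, split_st⟩, fun n => if st n then 0 else 1, ⟨?_, ?_⟩, ?_⟩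
  · simp [st]
  · have e : {n | (if st n then (0 : Fin 2) else 1) = 0} = {n | st n} := by
      ext n
      by_cases h : st n <;> simp [h]
    rw [IsSteering, e]
    exact split_st
  · rintro s ⟨h0, hs⟩
    funext n
    have := splitting_unique hs h0 n
    by_cases h : st n
    · rw [if_pos h]
      exact this.2 h
    · rw [if_neg h]
      have h1 : s n ≠ 0 := fun h' => h (this.1 h')
      omega

end Pool.Agent.Results.MP_814ec7_co.UniqueSteering
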